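import Pool.Agent.Run7.h235.AE.Weak

/-!
# MP_ae5b4e_an: real analytic convex foliations of the whole exterior of an arbitrary curve

`γ = (a, b)` is an arbitrary smooth closed strictly convex curve (points of zero curvature are
allowed) and `F ≥ 0` is a function whose levels `{F = r}`, `r > 0`, are closed convex curves that
fill the whole exterior of `γ` in the affine plane (`ConvexLeaves`), `γ = {F = 0}`.
`tangentPoint a b x s` is the point with the coordinate `s` on the tangent line of `γ` at
`(a x, b x)`, and the closed exterior of `γ` is the union of its tangent lines.  The involution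
`σ_p`, `p = (a x, b x)`, is projective near `p` if and only if it is `s ↦ -s / (1 + c s)` for some
real `c` (`ProjectiveAt`; nothing is assumed about the points of the tangent line away from `p`).

Conclusion: if `F` is real analytic along the tangent lines of `γ` and all `σ_p` are projective
near `p`, then `γ` is an ellipse and the leaves are the homothetic ellipses with the same centre,
all in one pencil of conics.

Proof: `F` restricted to a tangent line is analytic and tends to infinity at both ends, hence
(analytic continuation) `σ_p` is the restriction of the point reflection in `p`, on the whole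
tangent line.  If the curvature vanishes at `p`, then comparing the derivatives of
`F (p + s v) = F (p - s v)` with respect to `s` and to `p` one finds that `F` is constant on the
tangent line, a contradiction.  The leaves together with the line at infinity, which is a smooth
leaf (parallel tangents), foliate the whole exterior in the projective plane, and the starting
theorem `WholeExteriorRigidity` applies.
-/

set_option autoImplicit false

open Filter Topology Set Real
open scoped ContDiff

namespace Pool.Agent.Results.MP_ae5b4e_an.AnalyticExterior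

open Pool.Agent.Run7.h235.AE

/-- `x ↦ (a x, b x)` is a smooth closed strictly convex curve: it is regular and stays strictly on
the left of each of its tangent lines.  The curvature may have zeros. -/
structure ConvexCurve (a b : ℝ → ℝ) : Prop where
  smooth₁ : ContDiff ℝ ∞ a
  smooth₂ : ContDiff ℝ ∞ b
  per₁ : ∀ x, a (x + 2 * π) = a x
  per₂ : ∀ x, b (x + 2 * π) = b x
  regular : ∀ x, deriv a x ≠ 0 ∨ deriv b x ≠ 0
  convex : ∀ x x', x < x' → x' < x + 2 * π →
    0 < deriv a x * (b x' - b x) - deriv b x * (a x' - a x)

/-- the point with the coordinate `s` of the tangent line at `(a x, b x)` -/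
noncomputable def tangentPoint (a b : ℝ → ℝ) (x s : ℝ) : ℝ × ℝ :=
  (a x + s * deriv a x, b x + s * deriv b x)

/-- the closed exterior of the curve: the union of its tangent lines -/
def Exterior (a b : ℝ → ℝ) : Set (ℝ × ℝ) := {q | ∃ x s, q = tangentPoint a b x s}

/-- `F = 0` on the curve, and the levels `F = r`, `r > 0`, are closed convex curves around it
which fill its exterior: `F > 0` in the exterior, and the part of the plane inside the curve
together with the exterior points with `F ≤ r` is convex and bounded.  `F` is differentiable in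
the exterior and real analytic along the tangent lines of the curve. -/
structure ConvexLeaves (a b : ℝ → ℝ) (F : ℝ × ℝ → ℝ) : Prop where
  zero : ∀ x, F (a x, b x) = 0
  pos : ∀ x s, s ≠ 0 → 0 < F (tangentPoint a b x s)
  bounded : ∀ r, Bornology.IsBounded {q | q ∈ Exterior a b ∧ F q ≤ r}
  convex : ∀ r, 0 < r → Convex ℝ {q | q ∈ Exterior a b → F q ≤ r}
  differentiable : ∀ x s, s ≠ 0 → DifferentiableAt ℝ F (tangentPoint a b x s)
  analytic : ∀ x s, AnalyticAt ℝ (fun s => F (tangentPoint a b x s)) s

/-- the involution of the tangent line at `(a x, b x)` which exchanges the two points of each leaf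
near `(a x, b x)` is projective near this point -/
def ProjectiveAt (a b : ℝ → ℝ) (F : ℝ × ℝ → ℝ) (x : ℝ) : Prop :=
  ∃ c : ℝ, ∀ᶠ s in 𝓝 (0 : ℝ),
    F (tangentPoint a b x (-s / (1 + c * s))) = F (tangentPoint a b x s)

/-- the quadratic form `A x² + 2 B x y + C y²` at `q - (x₀, y₀)` -/
def quad (x₀ y₀ A B C : ℝ) (q : ℝ × ℝ) : ℝ :=
  A * (q.1 - x₀) ^ 2 + 2 * B * (q.1 - x₀) * (q.2 - y₀) + C * (q.2 - y₀) ^ 2

theorem coer {a b : ℝ → ℝ} {F : ℝ × ℝ → ℝ} (h : ConvexCurve a b) (hF : ConvexLeaves a b F)
    (x : ℝ) : Coer fun s => F (tangentPoint a b x s) := by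
  intro C
  obtain ⟨R, hR⟩ := (hF.bounded C).exists_norm_le
  have hT : (deriv a x, deriv b x) ≠ (0 : ℝ × ℝ) := by
    intro h0
    rcases h.regular x with h1 | h1
    · exact h1 (congrArg Prod.fst h0)
    · exact h1 (congrArg Prod.snd h0)
  have hT' : 0 < ‖(deriv a x, deriv b x)‖ := norm_pos_iff.mpr hT
  refine ⟨(R + ‖(a x, b x)‖) / ‖(deriv a x, deriv b x)‖, fun s hs => ?_⟩
  by_contra hcon
  push Not at hcon
  have h1 := hR _ ⟨⟨x, s, rfl⟩, hcon⟩
  rw [div_lt_iff₀ hT'] at hs
  have h2 : s • (deriv a x, deriv b x) = tangentPoint a b x s - (a x, b x) := by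
    unfold tangentPoint
    refine Prod.ext ?_ ?_
    · simp
    · simp
  have h3 : |s| * ‖(deriv a x, deriv b x)‖ ≤ ‖tangentPoint a b x s‖ + ‖(a x, b x)‖ := by
    rw [← Real.norm_eq_abs, ← norm_smul, h2]
    exact norm_sub_le _ _
  linarith

theorem good {a b : ℝ → ℝ} {F : ℝ × ℝ → ℝ} (h : ConvexCurve a b) (hF : ConvexLeaves a b F)
    (he : ∀ x s, F (tangentPoint a b x (-s)) = F (tangentPoint a b x s)) (x : ℝ) :
    Good fun s => F (tp a b x s) := by
  have h0 : F (tangentPoint a b x 0) = 0 := by
    unfold tangentPoint
    rw [zero_mul, zero_mul, add_zero, add_zero]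
    exact hF.zero x
  refine ⟨continuous_iff_continuousAt.mpr fun s => (hF.analytic x s).continuousAt,
    coer h hF x, h0, he x, strict_of_quasi (hF.analytic x) (coer h hF x) h0 (hF.pos x) ?_⟩
  intro r hr s1 h1 s2 h2 u v hu hv huv
  have h3 := hF.convex r hr (x := tangentPoint a b x s1) (fun _ => h1)
    (y := tangentPoint a b x s2) (fun _ => h2) hu hv huv
  have e : u • tangentPoint a b x s1 + v • tangentPoint a b x s2 =
      tangentPoint a b x (u • s1 + v • s2) := by
    have hv' : v = 1 - u := by linarith
    unfold tangentPoint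
    subst hv'
    refine Prod.ext ?_ ?_
    · simp
      ring
    · simp
      ring
  rw [e] at h3
  exact h3 ⟨x, _, rfl⟩

/-- **Theorem.** Let `γ = (a, b)` be a smooth closed strictly convex curve, let the levels of `F`
be closed convex curves that fill the whole affine exterior of `γ`, with `γ = {F = 0}`, and let `F`
be real analytic along the tangent lines of `γ`.  If every involution `σ_p`, `p ∈ γ`, is projective
near `p`, then `γ` is an ellipse and all leaves are the homothetic ellipses with the same centre. -/
theorem result {a b : ℝ → ℝ} {F : ℝ × ℝ → ℝ} (h : ConvexCurve a b) (hF : ConvexLeaves a b F)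
    (hp : ∀ x, ProjectiveAt a b F x) :
    ∃ x₀ y₀ A B C : ℝ, 0 < A ∧ B ^ 2 < A * C ∧
      (∀ q : ℝ × ℝ, quad x₀ y₀ A B C q = 1 ↔ ∃ x, q = (a x, b x)) ∧
      ∃ φ : ℝ → ℝ, StrictMonoOn φ (Ici 1) ∧
        ∀ q : ℝ × ℝ, 1 ≤ quad x₀ y₀ A B C q → F q = φ (quad x₀ y₀ A B C q) := by
  have he : ∀ x s, F (tangentPoint a b x (-s)) = F (tangentPoint a b x s) := by
    intro x s
    obtain ⟨c, hc'⟩ := hp x
    exact even_of_proj (hF.analytic x) (coer h hF x) hc' s
  have hw : Pool.Agent.Run7.h235.OB.WCurve a b :=
    ⟨h.smooth₁, h.smooth₂, h.per₁, h.per₂, h.regular, h.convex⟩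
  have hκ := curv_of_coer hw (F := F) hF.differentiable he (coer h hF)
  have hc : Pool.Agent.Results.MP_ae5b4e_an.WholeExteriorRigidity.ConvexCurve a b :=
    ⟨h.smooth₁, h.smooth₂, h.per₁, h.per₂, hκ, h.convex⟩
  exact main hc (good h hF he)

end Pool.Agent.Results.MP_ae5b4e_an.AnalyticExterior
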