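import Pool.Agent.Run7.h858.CP.T
import Pool.Agent.Run7.h858.CP.R
import Pool.Agent.Run7.h858.CP.P3
import Pool.Agent.Run7.h858.CP.P5
import Pool.Agent.Run7.h858.CP.P7
import Pool.Agent.Run7.h858.CP.Comm
import Pool.Agent.Run7.h921.CP.F
import Pool.Agent.Run7.h11.CP.G
import Pool.Agent.Run7.h547.CP.L
import Pool.Agent.Run7.h547.CP.W
import Pool.Agent.Run7.h834.CP.K
import Pool.Agent.Run7.h834.CP.J

/-!
# MP_ae5b4e_an: foliations whose Poncelet maps commute

`γ = (a, b)` is an arbitrary smooth closed strictly convex curve of positive curvature, and the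
exterior side of `γ` is foliated by leaves with the numbers `c`, `0 ≤ c < c₀` (`γ` is the leaf
`c = 0`). The Poncelet map `f c` of a leaf sends `x` to `f c x`, when the tangent lines of `γ` at
`x` and at `f c x` meet on the leaf: from the forward point of the leaf on the tangent line at `x`
the second tangent line of `γ` touches `γ` at `f c x`. We assume that the Poncelet maps of the
leaves commute (`Commuting`; examples: the isoptic curves of `γ`, the loci of the points which see
an arc of `γ` of given length, or of given measure for any smooth measure on `γ`; the leaves of a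
pencil of conics of double contact with the ellipse `γ`).

If all the involutions of the tangent lines are projective (`ProjectiveInvolutions`), then `γ` is
an ellipse and the leaves are conics of one pencil. More precisely there are three independent
linear forms `ξ, η, ζ` in the homogeneous coordinates `(p, q, 1)`, that is, a projective
transformation `(ξ / ζ, η / ζ)` of the plane, and a smooth parameter `φ` of `γ`, such that `γ` is
mapped to the unit circle, the point `γ x` to `(cos (φ x), sin (φ x))`, with `ζ > 0` on `γ`, all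
Poncelet maps become rotations by the angle `τ c`, and the leaf `c` is mapped to the circle of
radius `1 / cos (τ c / 2)`: the leaf is contained in the conic
`cos (τ c / 2) ^ 2 (ξ ^ 2 + η ^ 2) = ζ ^ 2` of the pencil spanned by `ξ ^ 2 + η ^ 2` and `ζ ^ 2`.

Joint work of helpers 11, 547, 834, 921, 858.
-/

set_option autoImplicit false

namespace Pool.Agent.Results.MP_ae5b4e_an.CommutingPoncelet

open Real Set
open scoped ContDiff
open Pool.Agent.H858.CP

theorem main : Main :=
  main_of pieceT Pool.Agent.Run7.h921.CP.pF pieceR pieceP3 pieceP5 pieceP7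
    Run7.h834.CP.pieceK Pool.Agent.H11.CP.pG Run7.h547.CP.pL Run7.h834.CP.pieceJ
    Run7.h547.CPW.pW

theorem result (a b : ℝ → ℝ) (hc : ConvexCurve a b) (f : ℝ → ℝ → ℝ) (c₀ : ℝ) (X : ℝ → ℝ)
    (hf : Commuting f c₀ X) (hinv : ProjectiveInvolutions a b f c₀) :
    ∃ (φ τ : ℝ → ℝ) (ξ η ζ : Fin 3 → ℝ), ContDiff ℝ ∞ φ ∧ (∀ x, 0 < deriv φ x) ∧
      (∀ x, φ (x + 2 * π) = φ x + 2 * π) ∧
      (∀ c x, 0 ≤ c → c < c₀ → φ (f c x) = φ x + τ c) ∧
      ContinuousOn τ (Ico 0 c₀) ∧ τ 0 = 0 ∧ (∀ c, 0 < c → c < c₀ → 0 < τ c) ∧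
      det3 ξ η ζ ≠ 0 ∧
      (∀ x, 0 < dot ζ ![a x, b x, 1] ∧
        dot ξ ![a x, b x, 1] = cos (φ x) * dot ζ ![a x, b x, 1] ∧
        dot η ![a x, b x, 1] = sin (φ x) * dot ζ ![a x, b x, 1]) ∧
      (∀ c x p q : ℝ, 0 < c → c < c₀ → τ c < π → OnTangent a b x p q →
        OnTangent a b (f c x) p q →
        cos (τ c / 2) * dot ξ ![p, q, 1] = cos (φ x + τ c / 2) * dot ζ ![p, q, 1] ∧
        cos (τ c / 2) * dot η ![p, q, 1] = sin (φ x + τ c / 2) * dot ζ ![p, q, 1]) :=
  commuting_of_main main a b hc f c₀ X hf hinv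

end Pool.Agent.Results.MP_ae5b4e_an.CommutingPoncelet
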