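import Pool.Agent.Run7.h71.CD.Main

/-!
# MP_ae5b4e_an: foliations all of whose leaves have projective tangent involutions

`U` is a connected open subset of the affine plane, foliated by the level curves of a smooth
function `F` without critical points. `curved`: every leaf is curved; on the tangent line at `x` of
the leaf through `x` the function `F` has a nondegenerate minimum at `x`, so the leaves with slightly
larger values of `F` meet this line near `x` in two points, one on each side of `x`. `proj`: for a dense
set of points `x` of `U` the involution which exchanges these two points is projective near `x` (a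
projective involution of the line with coordinate `s` which fixes `0` and exchanges the sides is
`s ↦ -s / (1 + c s)`; `c` may depend on `x` in any way).

Conclusion: all leaves lie on nondegenerate conics of one pencil, spanned by two independent
quadratic forms `Q₁, Q₂` in homogeneous coordinates, without common zeros in `U`. This is the
smooth converse of Desargues' involution theorem, and settles Q1 for the foliations whose leaves all
(not only `γ`) have projective tangent involutions. Nothing is assumed about the leaves to be closed
or convex in the large, and the germs of the involutions at the points `x` are enough.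

Proof (Pool/Agent/Run7/h71/CD/Stm.lean): on the cone over `U` in `ℝ³` let `ζ` be the field
tangent to the leaves for which `s ↦ F (X + s ζ(X))` has second derivative `2` and vanishing third
derivative at `0`; projectivity means that this function is even. The moving frame
`X, ζ, ν = -(1/2) D_ζ ζ` has structure equations with finitely many invariants; the conditions of
orders five and seven close them to a system whose integrability conditions force the vanishing of
the invariant `t` which measures the deviation of the leaves from conics (an elimination with
explicit certificates). Then two quadratic forms attached to the frame span a parallel pencil.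

Joint work of helpers 24, 71, 415, 531, 559, 576, 596, 913, 957.
-/

set_option autoImplicit false

open Set Filter Topology
open scoped ContDiff

namespace Pool.Agent.Results.MP_ae5b4e_an.DesarguesConverse

/-- value at the point `x` of the affine plane of the quadratic form with the matrix `Q` in
homogeneous coordinates `(x.1, x.2, 1)` -/
def conic (Q : Matrix (Fin 3) (Fin 3) ℝ) (x : ℝ × ℝ) : ℝ :=
  ∑ i, ∑ j, Q i j * (![x.1, x.2, 1] : Fin 3 → ℝ) i * (![x.1, x.2, 1] : Fin 3 → ℝ) j

theorem result (U S : Set (ℝ × ℝ)) (F : ℝ × ℝ → ℝ) (isOpen : IsOpen U) (conn : IsConnected U)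
    (smooth : ContDiffOn ℝ ∞ F U) (regular : ∀ x ∈ U, fderiv ℝ F x ≠ 0)
    (curved : ∀ x ∈ U, ∀ v : ℝ × ℝ, v ≠ 0 → fderiv ℝ F x v = 0 →
      0 < deriv (deriv fun s : ℝ => F (x + s • v)) 0)
    (dense : U ⊆ closure S)
    (proj : ∀ x ∈ S ∩ U, ∀ v : ℝ × ℝ, fderiv ℝ F x v = 0 →
      ∃ c : ℝ, ∀ᶠ s in 𝓝 (0 : ℝ), F (x + s • v) = F (x - (s / (1 + c * s)) • v)) :
    ∃ Q₁ Q₂ : Matrix (Fin 3) (Fin 3) ℝ, Q₁.IsSymm ∧ Q₂.IsSymm ∧
      LinearIndependent ℝ ![Q₁, Q₂] ∧ (∀ x ∈ U, conic Q₁ x ≠ 0 ∨ conic Q₂ x ≠ 0) ∧
      ∀ L ⊆ U, IsPreconnected L → (∀ x ∈ L, ∀ y ∈ L, F x = F y) →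
        ∃ α β : ℝ, (α • Q₁ + β • Q₂).det ≠ 0 ∧ ∀ x ∈ L, conic (α • Q₁ + β • Q₂) x = 0 :=
  Pool.Agent.Run7.h71.CD.goal U F S conn ⟨isOpen, smooth, regular, curved⟩ dense proj

end Pool.Agent.Results.MP_ae5b4e_an.DesarguesConverse
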