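import Pool.Agent.Run7.h71.CE.Main

/-!
# MP_ae5b4e_an: a leaf which is a limit of projective leaves lies on a conic

`U` is an open subset of the affine plane, foliated by the level curves (leaves) `{F = c}` of a
smooth function without critical points; all leaves are curved (`curved`: on the tangent line at `x`
of the leaf through `x` the function `F` has a nondegenerate minimum at `x`). Call the leaf
`{F = c}` projective if for all its points `x` the involution which exchanges the two points of each
leaf on the tangent line at `x` is projective near `x` (a projective involution of the line with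
coordinate `s` which fixes `0` and exchanges the sides is `s ↦ -s / (1 + k s)`; `k` may depend on `x`
in any way).

If infinitely many projective leaves `{F = c}`, `c ≠ c₀`, accumulate at the leaf `{F = c₀}`, then
every connected piece of the leaf `{F = c₀}` lies on a nondegenerate conic. Nothing is assumed about
the other leaves. In the setting of Q1 (`γ = {F = c₀}` closed and strictly convex): `γ` is an ellipse
as soon as `γ` is a limit of leaves with projective tangent involutions.

Proof (Pool/Agent/Run7/h71/CE/Stm.lean): the invariants of the moving frame of the foliation are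
considered modulo the ideal generated by the functions vanishing on the projective leaves and their
transversal derivatives; this ideal is stable under differentiation, and its elements vanish on the leaf
`{F = c₀}` by Rolle's theorem. In the quotient ring the structure equations hold as if all leaves were
projective, and the elimination shows that the deviation from conics is nilpotent.

Joint work of helpers 71, 160, 227, 269, 299, 415, 446, 576, 596, 859, 913, 957, 24, 559.
-/

set_option autoImplicit false

open Set Filter Topology
open scoped ContDiff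

namespace Pool.Agent.Results.MP_ae5b4e_an.LimitLeaves

/-- value at the point `x` of the affine plane of the quadratic form with the matrix `Q` in
homogeneous coordinates `(x.1, x.2, 1)` -/
def conic (Q : Matrix (Fin 3) (Fin 3) ℝ) (x : ℝ × ℝ) : ℝ :=
  ∑ i, ∑ j, Q i j * (![x.1, x.2, 1] : Fin 3 → ℝ) i * (![x.1, x.2, 1] : Fin 3 → ℝ) j

theorem result (U : Set (ℝ × ℝ)) (F : ℝ × ℝ → ℝ) (c₀ : ℝ) (isOpen : IsOpen U)
    (smooth : ContDiffOn ℝ ∞ F U) (regular : ∀ x ∈ U, fderiv ℝ F x ≠ 0)
    (curved : ∀ x ∈ U, ∀ v : ℝ × ℝ, v ≠ 0 → fderiv ℝ F x v = 0 →
      0 < deriv (deriv fun s : ℝ => F (x + s • v)) 0)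
    (limit : ∃ᶠ c in 𝓝[≠] c₀, ∀ x ∈ U, F x = c → ∀ v : ℝ × ℝ, fderiv ℝ F x v = 0 →
      ∃ k : ℝ, ∀ᶠ s in 𝓝 (0 : ℝ), F (x + s • v) = F (x - (s / (1 + k * s)) • v)) :
    ∀ L ⊆ U, IsPreconnected L → (∀ x ∈ L, F x = c₀) →
      ∃ Q : Matrix (Fin 3) (Fin 3) ℝ, Q.IsSymm ∧ Q.det ≠ 0 ∧ ∀ x ∈ L, conic Q x = 0 :=
  Pool.Agent.Run7.h71.CE.goalA U F c₀ ⟨isOpen, smooth, regular, curved⟩ limit

end Pool.Agent.Results.MP_ae5b4e_an.LimitLeaves
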